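import Pool.Agent.H17LG.Variety
import Pool.Agent.H17.EntireCurves

/-!
# SA Defs: locally closed subvarieties of `ℙ^N`

The complement in a closed subvariety of the common zero set of some forms, and its properness over an affine variety.
-/

set_option autoImplicit false

open MvPolynomial
open Pool.Agent.H23.Fano (PrimeDivisorOver)
open Pool.Agent.H17 (PN VanishesAt)
open Pool.Agent.H17GT (coordFun)
open Pool.Agent.H17LG.Variety (FunField ratio)

noncomputable section

namespace Pool.Agent.H62.SA

variable {N : ℕ}

/-- The points of the zero locus of the homogeneous ideal `P` at which some of the forms `G m` does not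
vanish. -/
def locVar (P : Ideal (MvPolynomial (Fin (N + 1)) ℂ)) {s : ℕ}
    (G : Fin s → MvPolynomial (Fin (N + 1)) ℂ) : Set (PN N) :=
  {x | (∀ Q ∈ P, ∀ n, Q.IsHomogeneous n → VanishesAt Q x) ∧ ∃ m, ¬ VanishesAt (G m) x}

/-- The centre of the prime divisor `E` on the closed subvariety of `ℙ^N` given by `P` lies in the
common zero set of the forms `G m`. -/
def OnBd (P : Ideal (MvPolynomial (Fin (N + 1)) ℂ)) [P.IsPrime] {s : ℕ}
    (G : Fin s → MvPolynomial (Fin (N + 1)) ℂ) {k : ℕ} (E : PrimeDivisorOver (FunField P) k) : Prop :=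
  ∃ j, coordFun P j ≠ 0 ∧ (∀ i, 0 ≤ E.ord (ratio P i j)) ∧
    ∀ m, 0 < E.ord (aeval (fun i => ratio P i j) (G m))

/-- The forms `F m j`, of degree `e m`, with `F m 0 = G m` define a map from the zero locus of `P` to
`ℙ^M` (in homogeneous coordinates `(F m 0, …, F m M)`, for every `m` for which these forms do not all
vanish), such that the common zero set of the forms `G m` is the inverse image of a hyperplane. So `locVar P G`
is proper over an affine variety. -/
structure IsProperMap (P : Ideal (MvPolynomial (Fin (N + 1)) ℂ)) {s M : ℕ}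
    (G : Fin s → MvPolynomial (Fin (N + 1)) ℂ) (F : Fin s → Fin (M + 1) → MvPolynomial (Fin (N + 1)) ℂ)
    (e : Fin s → ℕ) : Prop where
  hom : ∀ m j, (F m j).IsHomogeneous (e m)
  zero : ∀ m, F m 0 = G m
  rel : ∀ m n j, F m j * G n - F n j * G m ∈ P
  noZero : ∀ x : PN N, (∀ Q ∈ P, ∀ n, Q.IsHomogeneous n → VanishesAt Q x) →
    ∃ m j, ¬ VanishesAt (F m j) x

end Pool.Agent.H62.SA
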