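import Pool.Agent.H62.SA.StartF
import Pool.Agent.H36.BPL.Main

/-!
# SA FinalF: surfaces of log general type which are proper over an affine variety
-/

set_option autoImplicit false

open Topology Filter MvPolynomial

noncomputable section

namespace Pool.Agent.H62.SA

open Pool.Agent.H17 (PN VanishesAt ZariskiClosedIn HolomorphicInto puncturedDisc PseudoBrodyHyperbolic
  PseudoPicardHyperbolic)
open Pool.Agent.H62.FC (Homog)
open Pool.Agent.H17BP (Surface IsChart IsForm NoZeros)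
open Pool.Agent.H17LG.Variety (FunField IsLogGeneralType)
open Pool.Agent.H13.SM (conTan)
open Pool.Agent.H13.OT (OrderTwo PseudoBrodyOrderTwo)
open Pool.Agent.H14.KB (KobayashiHyperbolicModulo PseudoKobayashiHyperbolic)
open Pool.Agent.H68.KR (cone)

variable {N : ℕ} {P : Ideal (MvPolynomial (Fin (N + 1)) ℂ)} {s M : ℕ} {G : Fin s → MvPolynomial (Fin (N + 1)) ℂ}
  {F : Fin s → Fin (M + 1) → MvPolynomial (Fin (N + 1)) ℂ} {e : Fin s → ℕ}

/-- **The main theorem.** -/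
theorem proper_surface [P.IsPrime] (hP : Homog P) {z : Fin 2 → FunField P} (hz : IsTranscendenceBasis ℂ z)
    (hsm : ∀ y : Fin (N + 1) → ℂ, y ≠ 0 → (∀ Q ∈ P, eval y Q = 0) → Module.finrank ℂ (conTan P y) ≤ 3)
    (h : IsProperMap P G F e) (hgt : IsLogGeneralType (K := FunField P) (k := 2) (OnBd P G))
    {Ξ : Set (PN N)} (hΞ : ZariskiClosedIn (locVar P G) Ξ) (hne : Ξ ≠ locVar P G)
    (hbr : ∀ f : ℂ → PN N, HolomorphicInto f Set.univ → OrderTwo f → (∀ z, f z ∈ locVar P G) →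
      (∃ z w, f z ≠ f w) → ∀ z, f z ∈ Ξ) :
    ∃ (Q : MvPolynomial (Fin (N + 1)) ℂ) (D : ℕ), Q.IsHomogeneous D ∧
      (∃ x ∈ locVar P G, ¬ VanishesAt Q x) ∧ (∀ x ∈ Ξ, VanishesAt Q x) ∧
      KobayashiHyperbolicModulo (locVar P G) Q D ∧
      ∀ f : ℂ → PN N, HolomorphicInto f puncturedDisc → (∀ z ∈ puncturedDisc, f z ∈ locVar P G) →
        (∃ z ∈ puncturedDisc, ¬ VanishesAt Q (f z)) →
        ∃ g : ℂ → PN N, HolomorphicInto g (Metric.ball 0 1) ∧ ∀ z ∈ puncturedDisc, g z = f z := by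
  have hX : Surface (cone P) := Pool.Agent.H13.SM.surface_cone hP hz fun y hy => hsm y hy.1 hy.2
  have hthin : ∀ σ τ, IsChart (cone P) σ τ → ∀ (d : ℕ) (Q : MvPolynomial (Fin (N + 1)) ℂ), Q.IsHomogeneous d →
      Q ∉ P → ∃ᶠ p in 𝓝 (0 : ℂ × ℂ), eval (σ p) Q ≠ 0 := fun σ τ h d Q hQ hQP =>
    Pool.Agent.H13.SM.frequently_ne_zero hP hz (fun y hy => hsm y hy.1 hy.2) h hQ hQP
  obtain ⟨k, Ω, D₀, Q₀, hk, hQ₀, hQ₀P, hΩ, hnz, hpole⟩ := exists_formF_of_smooth P hP hz h.homG hsm hgt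
  obtain ⟨Q, D, hQ, -, hex, hQΞ, m, j, Ω', hmodel⟩ := exists_modelF hP h hX hthin hk hΩ hpole hQ₀ hQ₀P hnz hΞ hne hbr
  refine ⟨Q, D, hQ, hex, hQΞ, ?_, fun f hf hfX hfQ => extends_of_modelF hP hmodel hf hfX hfQ⟩
  exact Pool.Agent.H14.KB.kobayashi_of_modelK (fun x hx => (rep_mem_locCone hP).2 hx) hmodel

/-- **The equivalence of the hyperbolicity properties** of a smooth surface of log general type which is proper over an affine variety. -/
theorem tfae_proper_surface [P.IsPrime] (hP : Homog P) {z : Fin 2 → FunField P} (hz : IsTranscendenceBasis ℂ z)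
    (hsm : ∀ y : Fin (N + 1) → ℂ, y ≠ 0 → (∀ Q ∈ P, eval y Q = 0) → Module.finrank ℂ (conTan P y) ≤ 3)
    (h : IsProperMap P G F e) (hgt : IsLogGeneralType (K := FunField P) (k := 2) (OnBd P G)) :
    List.TFAE [PseudoBrodyOrderTwo (locVar P G), PseudoBrodyHyperbolic (locVar P G),
      PseudoPicardHyperbolic (locVar P G), PseudoKobayashiHyperbolic (locVar P G)] := by
  tfae_have 2 → 1 := Pool.Agent.H36.BPL.orderTwo_of_brody
  tfae_have 3 → 2 := Pool.Agent.H36.BPL.brody_of_picard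
  tfae_have 4 → 2 := Pool.Agent.H14.KB.pseudoBrody_of_kobayashi
  tfae_have 1 → 4 := by
    rintro ⟨Ξ, hΞ, hne, hbr⟩
    obtain ⟨Q, D, hQ, hex, -, hk, -⟩ := proper_surface hP hz hsm h hgt hΞ hne hbr
    exact ⟨Q, D, hQ, hex, hk⟩
  tfae_have 1 → 3 := by
    rintro ⟨Ξ, hΞ, hne, hbr⟩
    obtain ⟨Q, D, hQ, ⟨x, hx, hxQ⟩, -, -, hp⟩ := proper_surface hP hz hsm h hgt hΞ hne hbr
    refine ⟨{x | x ∈ locVar P G ∧ VanishesAt Q x}, ⟨{Q}, ?_, ?_⟩, ?_, ?_⟩
    · intro P' hP'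
      rw [Set.mem_singleton_iff.1 hP']
      exact ⟨_, hQ⟩
    · ext x
      simp
    · intro heq
      rw [← heq] at hx
      exact hxQ hx.2
    · rintro f hf hfX ⟨z₁, hz₁, hz₁Q⟩
      exact hp f hf hfX ⟨z₁, hz₁, fun h => hz₁Q ⟨hfX z₁ hz₁, h⟩⟩
  tfae_finish

end Pool.Agent.H62.SA
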