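import Pool.Agent.H17BP.SameK
import Pool.Agent.H62.SA.FinalF

/-!
# SA SameF: the same exceptional set, for surfaces which are proper over an affine variety

As `Pool.Agent.H17BP.SameK` (written by helper17), for the complement of the common zero set of several forms.
-/

set_option autoImplicit false

open Topology Filter MvPolynomial

noncomputable section

namespace Pool.Agent.H62.SA

open Pool.Agent.H17 (PN VanishesAt ZariskiClosedIn HolomorphicInto puncturedDisc)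
open Pool.Agent.H17LG.Variety (FunField IsLogGeneralType)
open Pool.Agent.H62.FC (Homog exists_fin_basis trdeg_mono)
open Pool.Agent.H17BP (Pr HolP Picard Brody variety mapIdeal mapIdeal_isPrime exists_X_notMem mk_mem_variety
  mem_mapIdeal_form vanishesAt_mk le_mapIdeal mapIdeal_homog trdeg_lt eq_of_trdeg_zero mem_variety_mapIdeal
  rep_mem_cone cone_closed cone_smul' isPreconnected_puncturedDisc extend_of_picard holP_rep)
open Pool.Agent.H36.BPL (Brody2 analyticAt_form curve_picard2)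
open Pool.Agent.H36.BP (OrdTwo)
open Pool.Agent.H13.SM (conTan)
open Pool.Agent.H13.OT (OrderTwo mk_eq_of_pr pr_of_mk_eq holomorphicInto_mk OrdTwo.orderTwo)
open Pool.Agent.H14.KB (KobayashiHyperbolicModulo)
open Pool.Agent.H68.KR (cone)

variable {N : ℕ} {P I : Ideal (MvPolynomial (Fin (N + 1)) ℂ)} {s M : ℕ} {G : Fin s → MvPolynomial (Fin (N + 1)) ℂ}
  {F : Fin s → Fin (M + 1) → MvPolynomial (Fin (N + 1)) ℂ} {e : Fin s → ℕ}

/-- A closed subvariety is proper over the same affine variety. -/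
theorem IsProperMap.mono (h : IsProperMap P G F e) (hPI : P ≤ I) : IsProperMap I G F e where
  hom := h.hom
  zero := h.zero
  rel m n j := hPI (h.rel m n j)
  noZero x hx := h.noZero x fun Q hQ => hx Q (hPI hQ)

/-- A holomorphic disc in the intersection of a variety of dimension at most one with hypersurfaces is constant. -/
theorem disc_constF [I.IsPrime] (hI : Homog I) {w : ℕ} (hw : ∃ z : Fin w → FunField I, IsTranscendenceBasis ℂ z)
    (hw2 : w < 2) (hG : ∀ m, (G m).IsHomogeneous (e m)) {m : Fin s} (hGI : G m ∉ I) {f : ℂ → Fin (N + 1) → ℂ} {z₀ : ℂ}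
    (hf : AnalyticAt ℂ f z₀) (h : ∀ᶠ z in 𝓝 z₀, f z ∈ cone I ∧ f z ∉ locCone I G) :
    ∀ᶠ z in 𝓝 z₀, Pr (f z) (f z₀) := by
  classical
  have hm : ∀ᶠ z in 𝓝 z₀, eval (f z) (G m) = 0 := by
    filter_upwards [h] with z hz
    by_contra hcon
    exact hz.2 ⟨hz.1, m, hcon⟩
  obtain ⟨r, hr, hball⟩ := Metric.eventually_nhds_iff_ball.1 ((hf.eventually_analyticAt.and h).and hm)
  set U := Metric.ball z₀ r with hU
  have hz₀U : z₀ ∈ U := Metric.mem_ball_self hr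
  have hne0 : f z₀ ≠ 0 := (hball z₀ hz₀U).1.2.1.1
  let g : ℂ → PN N := fun z => if hz : f z ≠ 0 then Projectivization.mk ℂ (f z) hz else Projectivization.mk ℂ (f z₀) hne0
  have hg : ∀ z ∈ U, ∃ hz : f z ≠ 0, g z = Projectivization.mk ℂ (f z) hz := by
    intro z hz
    have h1 : f z ≠ 0 := (hball z hz).1.2.1.1
    exact ⟨h1, dif_pos h1⟩
  have hgh : HolomorphicInto g U := by
    intro z hz
    refine ⟨f, (hball z hz).1.1, ?_⟩
    filter_upwards [Metric.isOpen_ball.mem_nhds hz] with y hy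
    exact hg y hy
  have hJp : (mapIdeal g U).IsPrime :=
    mapIdeal_isPrime Metric.isOpen_ball (convex_ball z₀ r).isPreconnected ⟨z₀, hz₀U⟩ hgh
  have hJX := exists_X_notMem (f := g) (U := U) ⟨z₀, hz₀U⟩
  have hgI : ∀ z ∈ U, g z ∈ variety I := by
    intro z hz
    obtain ⟨h1, h2⟩ := hg z hz
    rw [h2, mk_mem_variety hI h1 (cone_smul' hI)]
    exact (hball z hz).1.2.1
  have hGJ : G m ∈ mapIdeal g U := by
    rw [mem_mapIdeal_form (hG m)]
    intro z hz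
    obtain ⟨h1, h2⟩ := hg z hz
    rw [h2, vanishesAt_mk (hG m)]
    exact (hball z hz).2
  obtain ⟨w', hw'⟩ := exists_fin_basis (P := mapIdeal g U) hJX
  have hlt : w' < w := trdeg_lt hI mapIdeal_homog (le_mapIdeal hI hgI) (fun h1 => hGI (h1 hGJ)) hJX hw hw'
  have hw0 : w' = 0 := by omega
  subst hw0
  filter_upwards [Metric.ball_mem_nhds z₀ hr] with z hz
  have h1 := eq_of_trdeg_zero mapIdeal_homog hJX hw' (g z) (mem_variety_mapIdeal hz) (g z₀)
    (mem_variety_mapIdeal hz₀U)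
  obtain ⟨h2, h3⟩ := hg z hz
  obtain ⟨h4, h5⟩ := hg z₀ hz₀U
  rw [h3, h5] at h1
  exact pr_of_mk_eq h2 h4 h1

/-- Holomorphic maps to an open curve which is not contained in the exceptional set. -/
theorem curve_caseF [P.IsPrime] (hP : Homog P) {z : Fin 2 → FunField P} (hz : IsTranscendenceBasis ℂ z)
    (h : IsProperMap P G F e)
    {S : Set (MvPolynomial (Fin (N + 1)) ℂ)} (hS : ∀ Q ∈ S, ∃ n, Q.IsHomogeneous n)
    (hbr : ∀ f : ℂ → PN N, HolomorphicInto f Set.univ → OrderTwo f → (∀ z, f z ∈ locVar P G) →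
      (∃ z w, f z ≠ f w) → ∀ z, f z ∈ {x | x ∈ locVar P G ∧ ∀ Q ∈ S, VanishesAt Q x})
    {d : ℕ} {Q : MvPolynomial (Fin (N + 1)) ℂ} (hQ : Q.IsHomogeneous d) (hQP : Q ∉ P) {U : Set ℂ} (hUo : IsOpen U)
    (hUc : IsPreconnected U) {f : ℂ → PN N} (hf : HolomorphicInto f U) (hfX : ∀ z ∈ U, f z ∈ locVar P G)
    (hfQ : ∀ z ∈ U, VanishesAt Q (f z))
    (hfS : ∃ z ∈ U, f z ∉ {x | x ∈ locVar P G ∧ ∀ Q ∈ S, VanishesAt Q x}) :
    ∃ I : Ideal (MvPolynomial (Fin (N + 1)) ℂ), Homog I ∧ (∀ z ∈ U, (f z).rep ∈ locCone I G) ∧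
      Picard (locCone I G) ∅ ∧ Brody (locCone I G) ∅ := by
  obtain ⟨z₁, hz₁, hz₁S⟩ := hfS
  have hne : U.Nonempty := ⟨z₁, hz₁⟩
  set I := mapIdeal f U with hI
  have hIp : I.IsPrime := mapIdeal_isPrime hUo hUc hne hf
  have hIh : Homog I := mapIdeal_homog
  have hfP : ∀ z ∈ U, f z ∈ variety P := fun z hz => ⟨(hfX z hz).1, fun m => m.elim0⟩
  have hPI : P ≤ I := le_mapIdeal hP hfP
  have hIX : ∃ i, (X i : MvPolynomial (Fin (N + 1)) ℂ) ∉ I := exists_X_notMem hne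
  obtain ⟨w, hw⟩ := exists_fin_basis (P := I) hIX
  have hw2 : w < 2 := trdeg_lt hP hIh hPI (fun h => hQP (h ((mem_mapIdeal_form hQ).2 hfQ))) hIX ⟨z, hz⟩ hw
  obtain ⟨-, m, hm⟩ := hfX z₁ hz₁
  have hGI : G m ∉ I := fun h1 => hm ((mem_mapIdeal_form (h.homG m)).1 h1 z₁ hz₁)
  obtain ⟨R, hRS, hRz⟩ : ∃ R ∈ S, ¬ VanishesAt R (f z₁) := by
    by_contra hcon
    push Not at hcon
    exact hz₁S ⟨hfX z₁ hz₁, hcon⟩
  obtain ⟨n, hR⟩ := hS R hRS
  have hRI : R ∉ I := fun h => hRz ((mem_mapIdeal_form hR).1 h z₁ hz₁)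
  have hI' : IsProperMap I G F e := h.mono hPI
  refine ⟨I, hIh, fun z hz => (rep_mem_locCone hIh).2 ⟨(mem_variety_mapIdeal hz).1, (hfX z hz).2⟩, ?_⟩
  have hO := openPart_locCone hI' hIh
  refine curve_picard2 (X := cone I) (K := locCone I G) (fun h => h.1 rfl) cone_closed hO.sub hO.smul hO.rel
    (affProper_locCone hI' hIh) (fun f z₀ hf h1 => ?_) ?_
  · filter_upwards [disc_constF hIh hw hw2 h.homG hGI hf h1] with z hz
    obtain ⟨c, -, hc⟩ := hz
    exact ⟨c, hc⟩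
  -- there are no entire curves of order two
  rintro h₁ hh hhK hord ⟨z₂, -⟩ a c
  by_contra hac
  have hh0 : ∀ z, h₁ z ≠ 0 := fun z => (hhK z).1.1
  let g : ℂ → PN N := fun z => Projectivization.mk ℂ (h₁ z) (hh0 z)
  have hg : HolomorphicInto g Set.univ := holomorphicInto_mk hh0 hh
  have hgI : ∀ z, g z ∈ locVar I G := fun z => (mk_mem_locVar hIh h.homG (hh0 z)).2 (hhK z)
  have hgP : ∀ z, g z ∈ locVar P G := fun z => ⟨fun Q hQ n hn => (hgI z).1 Q (hPI hQ) n hn, (hgI z).2⟩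
  have hgS := hbr g hg (OrdTwo.orderTwo hh0 hh hord) hgP ⟨a, c, fun he => hac (pr_of_mk_eq _ _ he)⟩
  have hJp : (mapIdeal g Set.univ).IsPrime := mapIdeal_isPrime isOpen_univ isPreconnected_univ Set.univ_nonempty hg
  have hJX := exists_X_notMem (f := g) Set.univ_nonempty
  have hIJ : I ≤ mapIdeal g Set.univ := le_mapIdeal hIh fun z _ => ⟨(hgI z).1, fun m => m.elim0⟩
  have hRJ : R ∈ mapIdeal g Set.univ := (mem_mapIdeal_form hR).2 fun z _ => (hgS z).2 R hRS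
  obtain ⟨w', hw'⟩ := exists_fin_basis (P := mapIdeal g Set.univ) hJX
  have hlt : w' < w := trdeg_lt hIh mapIdeal_homog hIJ (fun h => hRI (h hRJ)) hJX hw hw'
  have hw0 : w' = 0 := by omega
  subst hw0
  exact hac (pr_of_mk_eq _ _ (eq_of_trdeg_zero mapIdeal_homog hJX hw' (g a) (mem_variety_mapIdeal (Set.mem_univ a))
    (g c) (mem_variety_mapIdeal (Set.mem_univ c))))

/-- The extension theorem with the same exceptional set. -/
theorem picard_sameF [P.IsPrime] (hP : Homog P) {z : Fin 2 → FunField P} (hz : IsTranscendenceBasis ℂ z)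
    (h : IsProperMap P G F e) {Ξ : Set (PN N)} (hΞ : ZariskiClosedIn (locVar P G) Ξ)
    (hbr : ∀ f : ℂ → PN N, HolomorphicInto f Set.univ → OrderTwo f → (∀ z, f z ∈ locVar P G) →
      (∃ z w, f z ≠ f w) → ∀ z, f z ∈ Ξ)
    {d : ℕ} {Q : MvPolynomial (Fin (N + 1)) ℂ} (hQ : Q.IsHomogeneous d) (hQP : Q ∉ P)
    (hpic : ∀ f : ℂ → PN N, HolomorphicInto f puncturedDisc → (∀ z ∈ puncturedDisc, f z ∈ locVar P G) →
      (∃ z ∈ puncturedDisc, ¬ VanishesAt Q (f z)) →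
      ∃ g : ℂ → PN N, HolomorphicInto g (Metric.ball 0 1) ∧ ∀ z ∈ puncturedDisc, g z = f z)
    {f : ℂ → PN N} (hf : HolomorphicInto f puncturedDisc) (hfX : ∀ z ∈ puncturedDisc, f z ∈ locVar P G)
    (hfΞ : ∃ z ∈ puncturedDisc, f z ∉ Ξ) :
    ∃ g : ℂ → PN N, HolomorphicInto g (Metric.ball 0 1) ∧ ∀ z ∈ puncturedDisc, g z = f z := by
  by_cases hfQ : ∃ z ∈ puncturedDisc, ¬ VanishesAt Q (f z)
  · exact hpic f hf hfX hfQ
  push Not at hfQ
  obtain ⟨S, hS, rfl⟩ := hΞ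
  obtain ⟨I, -, hK, hpI, -⟩ := curve_caseF hP hz h hS hbr hQ hQP (Metric.isOpen_ball.sdiff isClosed_singleton)
    isPreconnected_puncturedDisc hf hfX hfQ hfΞ
  obtain ⟨z₁, hz₁, -⟩ := hfΞ
  exact extend_of_picard hpI hf hK ⟨z₁, hz₁, Set.notMem_empty _⟩

/-- Entire curves of arbitrary order, with the same exceptional set. -/
theorem brody_sameF [P.IsPrime] (hP : Homog P) {z : Fin 2 → FunField P} (hz : IsTranscendenceBasis ℂ z)
    (h : IsProperMap P G F e) {Ξ : Set (PN N)} (hΞ : ZariskiClosedIn (locVar P G) Ξ)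
    (hbr : ∀ f : ℂ → PN N, HolomorphicInto f Set.univ → OrderTwo f → (∀ z, f z ∈ locVar P G) →
      (∃ z w, f z ≠ f w) → ∀ z, f z ∈ Ξ)
    {d : ℕ} {Q : MvPolynomial (Fin (N + 1)) ℂ} (hQ : Q.IsHomogeneous d) (hQP : Q ∉ P)
    (hpic : ∀ f : ℂ → PN N, HolomorphicInto f Set.univ → (∀ z, f z ∈ locVar P G) →
      (∃ z w, f z ≠ f w) → ∀ z, VanishesAt Q (f z))
    {f : ℂ → PN N} (hf : HolomorphicInto f Set.univ) (hfX : ∀ z, f z ∈ locVar P G)
    (hne : ∃ z w, f z ≠ f w) : ∀ z, f z ∈ Ξ := by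
  intro z₀
  by_contra hcon
  obtain ⟨S, hS, rfl⟩ := hΞ
  obtain ⟨I, -, hK, -, hbI⟩ := curve_caseF hP hz h hS hbr hQ hQP isOpen_univ isPreconnected_univ hf
    (fun z _ => hfX z) (fun z _ => hpic f hf hfX hne z) ⟨z₀, Set.mem_univ _, hcon⟩
  obtain ⟨a, c, hac⟩ := hne
  apply hac
  have h1 := hbI (fun z => (f z).rep) (fun z => holP_rep hf (Set.mem_univ z)) (fun z => hK z (Set.mem_univ z))
    ⟨z₀, Set.notMem_empty _⟩ a c
  have h2 := h1.mk_eq (f a).rep_nonzero (f c).rep_nonzero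
  rwa [Projectivization.mk_rep, Projectivization.mk_rep] at h2

/-- **The main theorem, with the exceptional set `Ξ`.** -/
theorem proper_main [hPp : P.IsPrime] (hP : Homog P) {z : Fin 2 → FunField P} (hz : IsTranscendenceBasis ℂ z)
    (hsm : ∀ y : Fin (N + 1) → ℂ, y ≠ 0 → (∀ Q ∈ P, eval y Q = 0) → Module.finrank ℂ (conTan P y) ≤ 3)
    (h : IsProperMap P G F e) (hgt : IsLogGeneralType (K := FunField P) (k := 2) (OnBd P G))
    {Ξ : Set (PN N)} (hΞ : ZariskiClosedIn (locVar P G) Ξ) (hne : Ξ ≠ locVar P G)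
    (hbr : ∀ f : ℂ → PN N, HolomorphicInto f Set.univ → OrderTwo f → (∀ z, f z ∈ locVar P G) →
      (∃ z w, f z ≠ f w) → ∀ z, f z ∈ Ξ) :
    (∀ f : ℂ → PN N, HolomorphicInto f Set.univ → (∀ z, f z ∈ locVar P G) →
      (∃ z w, f z ≠ f w) → ∀ z, f z ∈ Ξ) ∧
    (∀ f : ℂ → PN N, HolomorphicInto f puncturedDisc → (∀ z ∈ puncturedDisc, f z ∈ locVar P G) →
      (∃ z ∈ puncturedDisc, f z ∉ Ξ) →
      ∃ g : ℂ → PN N, HolomorphicInto g (Metric.ball 0 1) ∧ ∀ z ∈ puncturedDisc, g z = f z) ∧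
    ∃ (Q : MvPolynomial (Fin (N + 1)) ℂ) (D : ℕ), Q.IsHomogeneous D ∧
      (∃ x ∈ locVar P G, ¬ VanishesAt Q x) ∧ (∀ x ∈ Ξ, VanishesAt Q x) ∧
      KobayashiHyperbolicModulo (locVar P G) Q D := by
  obtain ⟨Q, D, hQ, ⟨x, hx, hxQ⟩, hQΞ, hkob, hpic⟩ := proper_surface hP hz hsm h hgt hΞ hne hbr
  have hQP : Q ∉ P := fun h => hxQ (hx.1 Q h D hQ)
  refine ⟨fun f hf hfX hfn => brody_sameF hP hz h hΞ hbr hQ hQP
      (fun f hf hfX hfn z => Pool.Agent.H14.KB.brody_of_kobayashi hQ hkob hf hfX hfn z) hf hfX hfn,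
    fun f hf hfX hfΞ => picard_sameF hP hz h hΞ hbr hQ hQP hpic hf hfX hfΞ,
    Q, D, hQ, ⟨x, hx, hxQ⟩, hQΞ, hkob⟩

end Pool.Agent.H62.SA
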