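import Pool.Agent.H36.BPL.Defs
import Pool.Agent.H68.KR.MainG
import Pool.Agent.H62.SA.ExtF

/-!
# SA MainF: open surfaces of log general type carry a section of `M (K + D) - H` with poles of order at most `M`

As `Pool.Agent.H68.KR.MainG` (written by helper68), the boundary `D` is the common zero set of the forms `Hf i`.
-/

set_option autoImplicit false

open MvPolynomial Topology Filter
open Pool.Agent.H23.Fano (Form regularForms PrimeDivisorOver)
open Pool.Agent.H17LG.Variety (FunField ratio PoleAtMost IsLogGeneralType)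
open Pool.Agent.H17BP (Tan IsForm NoZeros)
open Pool.Agent.H17GT (coordFun)
open Pool.Agent.H36.BPL (PoleLE VanOff OpenPart)
open Pool.Agent.H68.KR

noncomputable section

namespace Pool.Agent.H62.SA

variable {N : ℕ} (P : Ideal (MvPolynomial (Fin (N + 1)) ℂ))

/-- The part of the cone of `P` where some `Hf i` does not vanish. -/
def locCone {s : ℕ} (Hf : Fin s → MvPolynomial (Fin (N + 1)) ℂ) : Set (Fin (N + 1) → ℂ) :=
  {x | x ∈ cone P ∧ ∃ i, eval x (Hf i) ≠ 0}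

variable {P} {s : ℕ}

theorem locCone_subset (Hf : Fin s → MvPolynomial (Fin (N + 1)) ℂ) : locCone P Hf ⊆ cone P :=
  fun _ hx => hx.1

theorem locCone_smul (hP : ∀ p ∈ P, ∀ n, homogeneousComponent n p ∈ P) {e : Fin s → ℕ}
    {Hf : Fin s → MvPolynomial (Fin (N + 1)) ℂ} (hHf : ∀ i, (Hf i).IsHomogeneous (e i)) :
    ∀ x ∈ locCone P Hf, ∀ c : ℂ, c ≠ 0 → c • x ∈ locCone P Hf := by
  rintro x ⟨hx, i, hi⟩ c hc
  refine ⟨cone_smul hP hx hc, i, ?_⟩
  have h : eval (c • x) (Hf i) = c ^ e i * eval x (Hf i) := eval₂_of_isHomogeneous (RingHom.id ℂ) (hHf i) c x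
  rw [h]
  exact mul_ne_zero (pow_ne_zero _ hc) hi

theorem locCone_open (Hf : Fin s → MvPolynomial (Fin (N + 1)) ℂ) :
    ∀ x ∈ locCone P Hf, ∀ᶠ y in 𝓝 x, (∀ Q ∈ P, eval y Q = 0) → y ∈ locCone P Hf := by
  rintro x ⟨hx, i, hi⟩
  have h1 : ∀ᶠ y in 𝓝 x, eval y (Hf i) ≠ 0 :=
    (MvPolynomial.continuous_eval (Hf i)).continuousAt.eventually_ne hi
  have h2 : ∀ᶠ y in 𝓝 x, y ≠ 0 := continuousAt_id.eventually_ne hx.1
  filter_upwards [h1, h2] with y h3 h4 h5
  exact ⟨⟨h4, h5⟩, i, h3⟩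

variable {M a : ℕ} {t₀ : Fin 3 → Fin (N + 1)} {A B : MvPolynomial (Fin (N + 1)) ℂ}

/-- The zero set of an analytic function which does not vanish near `p` contains no open set near `p`. -/
private theorem MainF_ident {f : ℂ × ℂ → ℂ} {p : ℂ × ℂ} (hf : AnalyticAt ℂ f p) (h0 : ¬ ∀ᶠ u in 𝓝 p, f u = 0) :
    ∀ᶠ q in 𝓝 p, ¬ ∀ᶠ u in 𝓝 q, f u = 0 := by
  obtain ⟨r, hr, hB⟩ := Metric.eventually_nhds_iff_ball.1 hf.eventually_analyticAt
  filter_upwards [Metric.ball_mem_nhds p hr] with q hq hcon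
  have h1 : AnalyticOnNhd ℂ f (Metric.ball p r) := fun u hu => hB u hu
  have h2 := h1.eqOn_zero_of_preconnected_of_eventuallyEq_zero
    (convex_ball p r).isPreconnected hq hcon
  refine h0 ?_
  filter_upwards [Metric.ball_mem_nhds p hr] with u hu
  exact h2 hu

/-- The pole estimate for maps, from the extension statement at the point `0`. -/
private theorem MainF_pole {Hf : Fin s → MvPolynomial (Fin (N + 1)) ℂ} (hM : 1 ≤ M)
    (hA : A.IsHomogeneous a) (hB : B.IsHomogeneous (a + 3 * M + 1)) (hBP : B ∉ P)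
    (hsm : ∀ x ∈ cone P, ∃ t σ, CChart P x t σ)
    (hext0 : ∀ (φ : ℂ × ℂ → Fin (N + 1) → ℂ), AnalyticAt ℂ φ 0 → (∀ᶠ u in 𝓝 (0 : ℂ × ℂ), φ u ∈ cone P) →
      ∀ G : List (ℂ × ℂ → ℂ), G.length = M → (∀ g ∈ G, AnalyticAt ℂ g 0) →
      (∀ g ∈ G, ∀ᶠ u in 𝓝 (0 : ℂ × ℂ), (∀ i, eval (φ u) (Hf i) = 0) → g u = 0) →
      ∃ Φ : ℂ × ℂ → ℂ, AnalyticAt ℂ Φ 0 ∧ ∀ᶠ u in 𝓝 (0 : ℂ × ℂ),
        eval (φ u) B * Φ u = (G.map fun g => g u).prod * (eval (φ u) A * D3 t₀ (φ u) (d1 φ u) (d2 φ u) ^ M))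
    (hext : ∀ x ∈ locCone P Hf, ∀ t σ, CChart P x t σ → ∃ Φ, Ext M t₀ A B σ Φ 0)
    {Om : (Fin (N + 1) → ℂ) → (Fin (N + 1) → ℂ) → (Fin (N + 1) → ℂ) → ℂ}
    (h1 : ∀ x ∈ locCone P Hf, ∀ (φ : ℂ × ℂ → Fin (N + 1) → ℂ) (p : ℂ × ℂ) (Φ : ℂ × ℂ → ℂ), AnalyticAt ℂ φ p →
        (∀ᶠ u in 𝓝 p, ∀ Q ∈ P, eval (φ u) Q = 0) → φ p = x → Ext M t₀ A B φ Φ p →
        (¬ ∀ᶠ u in 𝓝 p, eval (φ u) B = 0) → Om x (d1 φ p) (d2 φ p) = Φ p)
    (h2 : ∀ x ∈ locCone P Hf, ∃ (t : Fin 3 → Fin (N + 1)) (C : ℂ), ∀ v w, Om x v w = C * D3 t x v w ^ M) :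
    PoleLE (cone P) (locCone P Hf) M Om := by
  intro φ p hφ hφX G hG hGv
  by_cases hB0 : ∀ᶠ u in 𝓝 p, eval (φ u) B = 0
  · -- the map is degenerate
    have hdeg : ∀ s : Fin 3 → Fin (N + 1), ∀ᶠ u in 𝓝 p, D3 s (φ u) (d1 φ u) (d2 φ u) = 0 := by
      intro s
      by_contra hs
      exact nd_of_D3 P hsm hφ hφX hs _ B hB hBP hB0
    refine ⟨fun _ => 0, analyticAt_const, ?_⟩
    filter_upwards [Filter.eventually_all.2 hdeg] with y hy hyK
    obtain ⟨t, C, hC⟩ := h2 (φ y) hyK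
    have h3 : Om (φ y) (fderiv ℂ φ y (1, 0)) (fderiv ℂ φ y (0, 1)) = 0 := by
      rw [hC]
      have h4 := hy t
      unfold d1 d2 at h4
      rw [h4, zero_pow (by omega), mul_zero]
    rw [h3, mul_zero]
  -- the translated map
  have hpt : Tendsto (fun u : ℂ × ℂ => p + u) (𝓝 0) (𝓝 p) := by
    have h : Continuous fun u : ℂ × ℂ => p + u := by fun_prop
    have := h.tendsto 0
    simpa using this
  have hmt : Tendsto (fun u : ℂ × ℂ => u - p) (𝓝 p) (𝓝 0) := by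
    have h : Continuous fun u : ℂ × ℂ => u - p := by fun_prop
    have := h.tendsto p
    simpa using this
  have htan : AnalyticAt ℂ (fun u : ℂ × ℂ => p + u) 0 := analyticAt_const.add analyticAt_id
  have hman : AnalyticAt ℂ (fun u : ℂ × ℂ => u - p) p := analyticAt_id.sub analyticAt_const
  have hφ' : AnalyticAt ℂ (fun u => φ (p + u)) 0 :=
    AnalyticAt.fun_comp (g := φ) (f := fun u : ℂ × ℂ => p + u) (by simpa using hφ) htan
  have hd1 : ∀ u, d1 (fun u => φ (p + u)) u = d1 φ (p + u) := by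
    intro u
    unfold d1
    rw [fderiv_comp_add_left]
  have hd2 : ∀ u, d2 (fun u => φ (p + u)) u = d2 φ (p + u) := by
    intro u
    unfold d2
    rw [fderiv_comp_add_left]
  obtain ⟨Φ, hΦ1, hΦ2⟩ := hext0 (fun u => φ (p + u)) hφ' (hpt.eventually hφX)
    (G.map fun g => fun u => g (p + u)) (by rw [List.length_map, hG]) (by
      intro g' hg'
      obtain ⟨g, hg, rfl⟩ := List.mem_map.1 hg'
      exact AnalyticAt.fun_comp (g := g) (f := fun u : ℂ × ℂ => p + u) (by simpa using (hGv g hg).1) htan) (by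
      intro g' hg'
      obtain ⟨g, hg, rfl⟩ := List.mem_map.1 hg'
      filter_upwards [hpt.eventually (hGv g hg).2] with u hu h0
      exact hu fun hK => hK.2.elim fun i hi => hi (h0 i))
  refine ⟨fun y => Φ (y - p), ?_, ?_⟩
  · exact AnalyticAt.fun_comp (g := Φ) (f := fun u : ℂ × ℂ => u - p) (by simpa using hΦ1) hman
  have hb : ∀ᶠ y in 𝓝 p, eval (φ y) B * Φ (y - p) =
      (G.map fun g => g y).prod * (eval (φ y) A * D3 t₀ (φ y) (d1 φ y) (d2 φ y) ^ M) := by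
    filter_upwards [hmt.eventually hΦ2] with y hy
    simp only [hd1, hd2, List.map_map, Function.comp_def, add_sub_cancel] at hy
    exact hy
  have hban : AnalyticAt ℂ (fun y => Φ (y - p)) p :=
    AnalyticAt.fun_comp (g := Φ) (f := fun u : ℂ × ℂ => u - p) (by simpa using hΦ1) hman
  have hGprod : AnalyticAt ℂ (fun u => (G.map fun g => g u).prod) p :=
    Pool.Agent.H36.BPL.analyticAt_listProd fun g hg => (hGv g hg).1
  filter_upwards [hφ.eventually_analyticAt, hφX.eventually_nhds, hban.eventually_analyticAt,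
    hb.eventually_nhds, MainF_ident (analyticAt_eval hφ B) hB0, hGprod.eventually_analyticAt] with u a1 a2 a3 a4 a5 a6 hu
  obtain ⟨Ψ, hΨ⟩ := exists_ext_map hA hB (fun x hx => hsm x hx.1) hext a1 (a2.mono fun y hy => hy.2) hu
  have h3 : Om (φ u) (d1 φ u) (d2 φ u) = Ψ u :=
    h1 (φ u) hu φ u Ψ a1 (a2.mono fun y hy => hy.2) rfl hΨ a5
  change Φ (u - p) = (G.map fun g => g u).prod * Om (φ u) (d1 φ u) (d2 φ u)
  rw [h3]
  by_contra hne
  apply a5
  have hg : ContinuousAt (fun u => Φ (u - p) - (G.map fun g => g u).prod * Ψ u) u :=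
    a3.continuousAt.sub (a6.continuousAt.mul hΨ.1.continuousAt)
  have hg0 : ∀ᶠ u' in 𝓝 u, Φ (u' - p) - (G.map fun g => g u').prod * Ψ u' ≠ 0 :=
    hg.eventually_ne (sub_ne_zero.2 hne)
  filter_upwards [hg0, a4, hΨ.2] with u' k1 k2 k3
  have h4 : eval (φ u') B * (Φ (u' - p) - (G.map fun g => g u').prod * Ψ u') = 0 := by
    linear_combination k2 - (G.map fun g => g u').prod * k3
  exact (mul_eq_zero.1 h4).resolve_right k1

variable (P)

theorem exists_formF [P.IsPrime] (hP : ∀ p ∈ P, ∀ n, homogeneousComponent n p ∈ P)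
    {z : Fin 2 → FunField P} (hz : IsTranscendenceBasis ℂ z)
    {e : Fin s → ℕ} {Hf : Fin s → MvPolynomial (Fin (N + 1)) ℂ} (hHf : ∀ i, (Hf i).IsHomogeneous (e i))
    (hgt : IsLogGeneralType (K := FunField P) (k := 2) (OnBd P Hf))
    (hsm : ∀ x ∈ cone P, ∃ t σ, CChart P x t σ) :
    ∃ (M : ℕ) (Om : (Fin (N + 1) → ℂ) → (Fin (N + 1) → ℂ) → (Fin (N + 1) → ℂ) → ℂ) (D₀ : ℕ)
      (Q₀ : MvPolynomial (Fin (N + 1)) ℂ), 1 ≤ M ∧ Q₀.IsHomogeneous D₀ ∧ Q₀ ∉ P ∧
      IsForm (locCone P Hf) M 1 Om ∧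
      NoZeros (locCone P Hf) {x | x ∈ locCone P Hf ∧ eval x Q₀ = 0} Om ∧
      PoleLE (cone P) (locCone P Hf) M Om := by
  have hKP : locCone P Hf ⊆ cone P := locCone_subset Hf
  by_cases hne : (cone P).Nonempty
  swap
  · have hemp : ∀ x, x ∉ cone P := fun x hx => hne ⟨x, hx⟩
    have hemp' : ∀ x, x ∉ locCone P Hf := fun x hx => hemp x hx.1
    refine ⟨1, fun _ _ _ => 0, 0, 1, le_rfl, isHomogeneous_one _ _,
      fun h => (Ideal.ne_top_iff_one P).1 Ideal.IsPrime.ne_top' h, ⟨?_, ?_, ?_, ?_⟩, ?_, ?_⟩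
    · exact fun x hx => absurd hx (hemp' x)
    · exact fun x hx => absurd hx (hemp' x)
    · exact fun x hx => absurd hx (hemp' x)
    · exact fun φ p _ h => absurd h.self_of_nhds (hemp' _)
    · exact fun x hx => absurd hx (hemp' x)
    · exact fun φ p _ h => absurd h.self_of_nhds (hemp _)
  obtain ⟨x₀, hx₀⟩ := hne
  obtain ⟨t₀, σ₀, hσ₀⟩ := hsm x₀ hx₀
  obtain ⟨ht₀, hb₀⟩ := hσ₀.isTranscendenceBasis P hz
  obtain ⟨ω, hω, M, H, o, hM, hH, ho, hpole⟩ := kodaira_log P z hz hgt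
  obtain ⟨W, rfl⟩ := exists_form_mk hb₀ ω
  have hW : W ≠ 0 := by
    rintro rfl
    apply hω
    unfold Form.mk
    exact zero_smul _ _
  obtain ⟨d, A, B, hA, hB, hBP, hAP, hrep⟩ :=
    exists_hom_rep P z hz (H * ratio P (t₀ 0) o * W ^ M)
  have hAP' : A ∉ P := hAP (mul_ne_zero (mul_ne_zero hH (ratio_ne_zero P ht₀ ho)) (pow_ne_zero _ hW))
  have hextG := fun (φ : ℂ × ℂ → Fin (N + 1) → ℂ) (hφ : AnalyticAt ℂ φ 0)
      (hφX : ∀ᶠ u in 𝓝 (0 : ℂ × ℂ), φ u ∈ cone P) G hG hGan hG0 =>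
    exists_extF P z hz hsm ht₀ ho hM hHf hpole hA hB hBP hrep hφ hφX G hG hGan hG0
  set B' := B * X (t₀ 0) ^ (3 * M + 1) with hB'def
  have hext : ∀ x ∈ locCone P Hf, ∀ t σ, CChart P x t σ → ∃ Φ, Ext M t₀ A B' σ Φ 0 := by
    intro x hx t σ h
    obtain ⟨i₀, hi₀⟩ := hx.2
    have hne0 : ∀ᶠ u in 𝓝 (0 : ℂ × ℂ), eval (σ u) (Hf i₀) ≠ 0 := by
      refine (analyticAt_eval h.an (Hf i₀)).continuousAt.eventually_ne ?_
      rw [h.zero]
      exact hi₀
    obtain ⟨Φ, h1, h2⟩ := hextG σ h.an h.mem_cone (List.replicate M fun _ => 1) List.length_replicate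
      (fun g hg => by
        rw [List.eq_of_mem_replicate hg]
        exact analyticAt_const)
      (fun g hg => by
        filter_upwards [hne0] with u hu h0
        exact absurd (h0 i₀) hu)
    refine ⟨Φ, h1, ?_⟩
    filter_upwards [h2] with u hu
    rw [hu, List.map_replicate, List.prod_replicate, one_pow, one_mul]
  have hB' : B'.IsHomogeneous (d + 3 * M + 1) := by
    have := hB.mul (isHomogeneous_X_pow (R := ℂ) (t₀ 0) (3 * M + 1))
    rwa [← add_assoc] at this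
  have hBP' : B' ∉ P := by
    intro h
    rcases Ideal.IsPrime.mem_or_mem inferInstance h with h1 | h1
    · exact hBP h1
    · exact ht₀ (Ideal.IsPrime.mem_of_pow_mem inferInstance _ h1)
  have hsmK : ∀ x ∈ locCone P Hf, ∃ t σ, CChart P x t σ := fun x hx => hsm x hx.1
  obtain ⟨Om, h1, h2⟩ := exists_omK (P := P) hKP hA hB' hsmK hext
  have hform : IsForm (locCone P Hf) M 1 Om :=
    isForm_omK hKP (locCone_smul hP hHf) (locCone_open Hf) hP hA hB' hBP' hsmK hext h1 h2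
  choose e' R hR hRP hRne using exists_jacobian_form P hz ht₀ hb₀
  have hprod : (∏ t, R t).IsHomogeneous (∑ t, e' t) := IsHomogeneous.prod _ _ _ fun t _ => hR t
  have hprodP : (∏ t, R t) ∉ P := by
    intro h
    obtain ⟨t, -, ht⟩ := (Ideal.IsPrime.prod_mem_iff (p := P)).1 h
    exact hRP t ht
  refine ⟨M, Om, (d + (d + 3 * M + 1)) + 1 + ∑ t, e' t, A * B' * X (t₀ 0) * ∏ t, R t, hM,
    ((hA.mul hB').mul (isHomogeneous_X _ _)).mul hprod, fun h => ?_, hform, ?_, ?_⟩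
  · rcases Ideal.IsPrime.mem_or_mem inferInstance h with h3 | h3
    · rcases Ideal.IsPrime.mem_or_mem inferInstance h3 with h4 | h4
      · rcases Ideal.IsPrime.mem_or_mem inferInstance h4 with h5 | h5
        · exact hAP' h5
        · exact hBP' h5
      · exact ht₀ h4
    · exact hprodP h3
  · intro x hx hxB v hv w hw hind
    have hQ : eval x (A * B' * X (t₀ 0) * ∏ t, R t) ≠ 0 := fun h => hxB ⟨hx, h⟩
    rw [map_mul, map_mul, map_mul, eval_X, map_prod] at hQ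
    have hQR := right_ne_zero_of_mul hQ
    have hQ1 := left_ne_zero_of_mul hQ
    have hx0 := right_ne_zero_of_mul hQ1
    have hQ2 := left_ne_zero_of_mul hQ1
    have hxA := left_ne_zero_of_mul hQ2
    rw [Finset.prod_ne_zero_iff] at hQR
    obtain ⟨t, σ, hσ⟩ := hsmK x hx
    obtain ⟨Φ, hΦ⟩ := hext x hx t σ hσ
    have hD := hRne t x σ hσ hx0 (hQR t (Finset.mem_univ t))
    have hnd : ¬ ∀ᶠ u in 𝓝 (0 : ℂ × ℂ), eval (σ u) B' = 0 := hσ.nd _ _ hB' hBP'
    have h3 : Om x (d1 σ 0) (d2 σ 0) = Φ 0 := h1 x hx σ 0 Φ hσ.an hσ.mem hσ.zero hΦ hnd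
    have h4 := hΦ.2.self_of_nhds
    rw [hσ.zero] at h4
    have hΦ0 : Φ 0 ≠ 0 := by
      intro h0
      rw [h0, mul_zero] at h4
      exact (mul_ne_zero hxA (pow_ne_zero M hD)) h4.symm
    have htan : ∀ v ∈ Tan (locCone P Hf) x, v ∈ Tan (cone P) x := by
      rintro v ⟨γ, g1, g2, g3, g4⟩
      exact ⟨γ, g1, g2.mono fun z hz => hKP hz, g3, g4⟩
    obtain ⟨a, b, c, hvv⟩ := hσ.tan (htan v hv)
    obtain ⟨a', b', c', hww⟩ := hσ.tan (htan w hw)
    obtain ⟨s, C, hC⟩ := h2 x hx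
    have h5 : Om x v w = (a * b' - b * a') ^ M * Om x (d1 σ 0) (d2 σ 0) := by
      rw [hC, hC, hvv, hww, D3_add_smul, D3_det, mul_pow]
      ring
    rw [h5, h3]
    refine mul_ne_zero (pow_ne_zero M fun hdet => ?_) hΦ0
    -- a linear relation
    rw [Fintype.linearIndependent_iff] at hind
    by_cases hab : a = 0 ∧ b = 0
    · have h6 := hind ![-c, 1, 0] (by
        simp [Fin.sum_univ_three, hvv, hab.1, hab.2]) 1
      simp at h6
    · have h6 := hind ![-(c * b' - c' * b), b', -b] (by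
        simp only [Fin.sum_univ_three, Matrix.cons_val_zero, Matrix.cons_val_one,
          Matrix.cons_val_two, Matrix.head_cons, Matrix.tail_cons]
        rw [hvv, hww]
        ext i
        simp only [Pi.add_apply, Pi.smul_apply, smul_eq_mul, Pi.zero_apply]
        linear_combination (d1 σ 0 i) * hdet)
      have h7 := hind ![-(c' * a - c * a'), -a', a] (by
        simp only [Fin.sum_univ_three, Matrix.cons_val_zero, Matrix.cons_val_one,
          Matrix.cons_val_two, Matrix.head_cons, Matrix.tail_cons]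
        rw [hvv, hww]
        ext i
        simp only [Pi.add_apply, Pi.smul_apply, smul_eq_mul, Pi.zero_apply]
        linear_combination (d2 σ 0 i) * hdet)
      apply hab
      have h8 := h6 2
      have h9 := h7 2
      simp at h8 h9
      exact ⟨h9, h8⟩
  · exact MainF_pole hM hA hB' hBP' hsm hextG hext h1 h2

/-- **Kodaira's lemma for open surfaces**: the complement of an arbitrary curve in a smooth projective surface, of log general type, has
a holomorphic section of `M (K + D) - H` for some `M ≥ 1`, without zeros outside a hypersurface section. -/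
theorem exists_formF_of_smooth [P.IsPrime] (hP : Pool.Agent.H62.FC.Homog P) {z : Fin 2 → FunField P}
    (hz : IsTranscendenceBasis ℂ z) {e : Fin s → ℕ} {Hf : Fin s → MvPolynomial (Fin (N + 1)) ℂ} (hHf : ∀ i, (Hf i).IsHomogeneous (e i))
    (hsm : ∀ y : Fin (N + 1) → ℂ, y ≠ 0 → (∀ Q ∈ P, eval y Q = 0) →
      Module.finrank ℂ (Pool.Agent.H13.SM.conTan P y) ≤ 2 + 1)
    (hgt : IsLogGeneralType (K := FunField P) (k := 2) (OnBd P Hf)) :
    ∃ (M : ℕ) (Om : (Fin (N + 1) → ℂ) → (Fin (N + 1) → ℂ) → (Fin (N + 1) → ℂ) → ℂ) (D₀ : ℕ)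
      (Q₀ : MvPolynomial (Fin (N + 1)) ℂ), 1 ≤ M ∧ Q₀.IsHomogeneous D₀ ∧ Q₀ ∉ P ∧
      IsForm (locCone P Hf) M 1 Om ∧
      NoZeros (locCone P Hf) {x | x ∈ locCone P Hf ∧ eval x Q₀ = 0} Om ∧
      PoleLE (cone P) (locCone P Hf) M Om :=
  exists_formF P hP hz hHf hgt (exists_cchart hP hz hsm)

end Pool.Agent.H62.SA
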