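import Pool.Agent.H36.BPL.Start
import Pool.Agent.H62.SA.MainF

/-!
# SA StartF: the model of an open surface which is proper over an affine variety
-/

set_option autoImplicit false

open Topology Filter MvPolynomial

noncomputable section

namespace Pool.Agent.H62.SA

open Pool.Agent.H17 (PN VanishesAt ZariskiClosedIn HolomorphicInto puncturedDisc)
open Pool.Agent.H62.FC (Homog)
open Pool.Agent.H17BP (Surface IsChart IsForm NoZeros Pr HolP Picard Eqs Tan rep_mk_fin eval_smul_form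
  rep_mem_cone vanishesAt_mk holP_rep)
open Pool.Agent.H36.BPL (OpenPart AffProper PoleLE ModelK Brody2 analyticAt_form isForm_pow_mul picard_of_modelK)
open Pool.Agent.H13.OT (OrderTwo brody2_of_curves)
open Pool.Agent.H68.KR (cone)

variable {N : ℕ} {P : Ideal (MvPolynomial (Fin (N + 1)) ℂ)} {s M : ℕ} {G : Fin s → MvPolynomial (Fin (N + 1)) ℂ}
  {F : Fin s → Fin (M + 1) → MvPolynomial (Fin (N + 1)) ℂ} {e : Fin s → ℕ}

theorem IsProperMap.homG (h : IsProperMap P G F e) (m : Fin s) : (G m).IsHomogeneous (e m) := by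
  rw [← h.zero m]
  exact h.hom m 0

theorem rep_mem_locCone (hP : Homog P) {x : PN N} : x.rep ∈ locCone P G ↔ x ∈ locVar P G := by
  constructor
  · rintro ⟨h2, m, h3⟩
    exact ⟨((rep_mem_cone hP).1 h2).1, m, h3⟩
  · rintro ⟨h2, m, h3⟩
    exact ⟨(rep_mem_cone hP).2 ⟨h2, fun m => m.elim0⟩, m, h3⟩

theorem mk_mem_locVar (hP : Homog P) (hG : ∀ m, (G m).IsHomogeneous (e m)) {x : Fin (N + 1) → ℂ} (hx : x ≠ 0) :
    Projectivization.mk ℂ x hx ∈ locVar P G ↔ x ∈ locCone P G := by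
  rw [← rep_mem_locCone hP]
  obtain ⟨a, ha, h⟩ := rep_mk_fin hx
  rw [h]
  constructor
  · intro h1
    have h2 := locCone_smul hP hG _ h1 a⁻¹ (inv_ne_zero ha)
    rwa [smul_smul, inv_mul_cancel₀ ha, one_smul] at h2
  · intro h1
    exact locCone_smul hP hG _ h1 a ha

theorem IsProperMap.noZero_cone (h : IsProperMap P G F e) (hP : Homog P) {x : Fin (N + 1) → ℂ} (hx : x ∈ cone P) :
    ∃ m j, eval x (F m j) ≠ 0 := by
  obtain ⟨a, ha, h1⟩ := rep_mk_fin hx.1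
  have h2 : (Projectivization.mk ℂ x hx.1).rep ∈ cone P := by
    rw [h1]
    exact Pool.Agent.H68.KR.cone_smul hP hx ha
  obtain ⟨m, j, h3⟩ := h.noZero (Projectivization.mk ℂ x hx.1) ((rep_mem_cone hP).1 h2).1
  refine ⟨m, j, fun h4 => h3 ?_⟩
  rw [vanishesAt_mk (h.hom m j) hx.1]
  exact h4

theorem IsProperMap.eval_rel (h : IsProperMap P G F e) {x : Fin (N + 1) → ℂ} (hx : x ∈ cone P) (m n : Fin s)
    (j : Fin (M + 1)) : eval x (F m j) * eval x (G n) = eval x (F n j) * eval x (G m) := by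
  have h1 := hx.2 _ (h.rel m n j)
  rw [map_sub, map_mul, map_mul] at h1
  exact sub_eq_zero.1 h1

/-- If some `F m j` does not vanish then `G m` is an equation of the boundary. -/
theorem IsProperMap.mem_iff (h : IsProperMap P G F e) {x : Fin (N + 1) → ℂ} (hx : x ∈ cone P) {m : Fin s}
    {j : Fin (M + 1)} (hm : eval x (F m j) ≠ 0) : x ∈ locCone P G ↔ eval x (G m) ≠ 0 := by
  constructor
  · rintro ⟨-, n, hn⟩ h0
    have h1 := h.eval_rel hx m n j
    rw [h0, mul_zero] at h1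
    exact mul_ne_zero hm hn h1
  · intro h1
    exact ⟨hx, m, h1⟩

theorem openPart_locCone (h : IsProperMap P G F e) (hP : Homog P) : OpenPart (cone P) (locCone P G) where
  sub := locCone_subset G
  smul := locCone_smul hP h.homG
  eqn x hx := by
    obtain ⟨m, j, hm⟩ := h.noZero_cone hP hx
    refine ⟨fun y => eval y (G m), analyticAt_form _ x, ?_⟩
    filter_upwards [(analyticAt_form (F m j) x).continuousAt.eventually_ne hm] with y hy hyX
    rw [h.mem_iff hyX hy, not_not]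

/-- The map to the affine space. -/
def affF (G : Fin s → MvPolynomial (Fin (N + 1)) ℂ) (F : Fin s → Fin (M + 1) → MvPolynomial (Fin (N + 1)) ℂ)
    (x : Fin (N + 1) → ℂ) (j : Fin (M + 1)) : ℂ :=
  open Classical in if h : ∃ m, eval x (G m) ≠ 0 then eval x (F h.choose j) / eval x (G h.choose) else 0

theorem IsProperMap.affF_eq (h : IsProperMap P G F e) {x : Fin (N + 1) → ℂ} (hx : x ∈ cone P) {m : Fin s}
    (hm : eval x (G m) ≠ 0) (j : Fin (M + 1)) : affF G F x j = eval x (F m j) / eval x (G m) := by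
  have h1 : ∃ m, eval x (G m) ≠ 0 := ⟨m, hm⟩
  unfold affF
  rw [dif_pos h1, div_eq_div_iff h1.choose_spec hm]
  exact h.eval_rel hx _ _ j

theorem affProper_locCone (h : IsProperMap P G F e) (hP : Homog P) :
    AffProper (cone P) (locCone P G) (affF G F) where
  smul x hx c hc := by
    obtain ⟨hxc, m, hm⟩ := hx
    have h1 : eval (c • x) (G m) ≠ 0 := by
      rw [eval_smul_form (h.homG m)]
      exact mul_ne_zero (pow_ne_zero _ hc) hm
    funext j
    rw [h.affF_eq (Pool.Agent.H68.KR.cone_smul hP hxc hc) h1, h.affF_eq hxc hm, eval_smul_form (h.homG m),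
      eval_smul_form (h.hom m j), mul_div_mul_left _ _ (pow_ne_zero _ hc)]
  cont := by
    rintro x ⟨hxc, m, hm⟩
    rw [continuousWithinAt_pi]
    intro j
    have h1 : ContinuousWithinAt (fun y : Fin (N + 1) → ℂ => eval y (F m j) / eval y (G m)) (locCone P G) x :=
      ((analyticAt_form _ x).continuousAt.div (analyticAt_form _ x).continuousAt hm).continuousWithinAt
    refine h1.congr_of_eventuallyEq ?_ (h.affF_eq hxc hm j)
    have h2 : ∀ᶠ y in 𝓝[locCone P G] x, eval y (G m) ≠ 0 :=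
      ((analyticAt_form (G m) x).continuousAt.eventually_ne hm).filter_mono nhdsWithin_le_nhds
    filter_upwards [h2, self_mem_nhdsWithin] with y h3 h4
    exact h.affF_eq h4.1 h3 j
  hol f z₀ hf hfK := by
    obtain ⟨hxc, m, hm⟩ := hfK.self_of_nhds
    rw [analyticAt_pi_iff]
    intro j
    have hG : AnalyticAt ℂ (fun z => eval (f z) (G m)) z₀ :=
      AnalyticAt.comp (g := fun y : Fin (N + 1) → ℂ => eval y (G m)) (f := f) (analyticAt_form _ _) hf
    have hF : AnalyticAt ℂ (fun z => eval (f z) (F m j)) z₀ :=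
      AnalyticAt.comp (g := fun y : Fin (N + 1) → ℂ => eval y (F m j)) (f := f) (analyticAt_form _ _) hf
    refine (hF.div hG hm).congr ?_
    filter_upwards [hG.continuousAt.eventually_ne hm, hfK] with z h1 h2
    exact (h.affF_eq h2.1 h1 j).symm
  proper x hx hxK R := by
    obtain ⟨m, j, hm⟩ := h.noZero_cone hP hx
    have h0 : eval x (G m) = 0 := by
      by_contra h1
      exact hxK ((h.mem_iff hx hm).2 h1)
    have hc : 0 < ‖eval x (F m j)‖ / 2 := by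
      have := norm_pos_iff.2 hm
      positivity
    have h1 : ∀ᶠ y in 𝓝 x, ‖eval x (F m j)‖ / 2 < ‖eval y (F m j)‖ := by
      have h2 : ContinuousAt (fun y : Fin (N + 1) → ℂ => ‖eval y (F m j)‖) x := (analyticAt_form _ x).continuousAt.norm
      exact h2.eventually_const_lt (by linarith)
    have h3 : ∀ᶠ y in 𝓝 x, ‖eval y (G m)‖ < ‖eval x (F m j)‖ / 2 / (|R| + 1) := by
      have h4 : ContinuousAt (fun y : Fin (N + 1) → ℂ => ‖eval y (G m)‖) x := (analyticAt_form _ x).continuousAt.norm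
      refine h4.eventually_lt_const ?_
      show ‖eval x (G m)‖ < ‖eval x (F m j)‖ / 2 / (|R| + 1)
      rw [h0, norm_zero]
      positivity
    filter_upwards [h1, h3, (analyticAt_form (F m j) x).continuousAt.eventually_ne hm] with y hy1 hy2 hy3 hyK
    have hne : eval y (G m) ≠ 0 := (h.mem_iff hyK.1 hy3).1 hyK
    have hpos : 0 < ‖eval y (G m)‖ := norm_pos_iff.2 hne
    have h5 : |R| + 1 < ‖affF G F y j‖ := by
      rw [h.affF_eq hyK.1 hne j, norm_div, lt_div_iff₀ hpos]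
      have h6 : 0 < |R| + 1 := by positivity
      have h7 := (lt_div_iff₀ h6).1 hy2
      linarith
    calc R ≤ |R| := le_abs_self R
      _ < |R| + 1 := by linarith
      _ < ‖affF G F y j‖ := h5
      _ ≤ ‖affF G F y‖ := norm_le_pi_norm _ j
  iso f z₀ hf hfX := by
    obtain ⟨m, j, hm⟩ := h.noZero_cone hP hfX.self_of_nhds
    have hG : AnalyticAt ℂ (fun z => eval (f z) (G m)) z₀ :=
      AnalyticAt.comp (g := fun y : Fin (N + 1) → ℂ => eval y (G m)) (f := f) (analyticAt_form _ _) hf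
    have hF : AnalyticAt ℂ (fun z => eval (f z) (F m j)) z₀ :=
      AnalyticAt.comp (g := fun y : Fin (N + 1) → ℂ => eval y (F m j)) (f := f) (analyticAt_form _ _) hf
    have hne : ∀ᶠ z in 𝓝 z₀, eval (f z) (F m j) ≠ 0 := hF.continuousAt.eventually_ne hm
    rcases hG.eventually_eq_zero_or_eventually_ne_zero with h3 | h3
    · left
      filter_upwards [h3, hfX, hne] with z h4 h5 h6 h7
      exact (h.mem_iff h5 h6).1 h7 h4
    · right
      filter_upwards [h3, hfX.filter_mono nhdsWithin_le_nhds] with z h4 h5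
      exact ⟨h5, m, h4⟩

/-- The initial model. -/
theorem modelK_startF [hPp : P.IsPrime] (hP : Homog P) (h : IsProperMap P G F e) (hX : Surface (cone P))
    (hthin : ∀ σ τ, IsChart (cone P) σ τ → ∀ (d : ℕ) (Q : MvPolynomial (Fin (N + 1)) ℂ), Q.IsHomogeneous d →
      Q ∉ P → ∃ᶠ p in 𝓝 (0 : ℂ × ℂ), eval (σ p) Q ≠ 0)
    {m₀ : Fin s} (hm₀ : G m₀ ∉ P)
    {k D₀ D₁ : ℕ} (hk : 1 ≤ k) {Ω : (Fin (N + 1) → ℂ) → (Fin (N + 1) → ℂ) → (Fin (N + 1) → ℂ) → ℂ}
    (hΩ : IsForm (locCone P G) k 1 Ω) (hpole : PoleLE (cone P) (locCone P G) k Ω)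
    {Q₀ : MvPolynomial (Fin (N + 1)) ℂ} (hQ₀ : Q₀.IsHomogeneous D₀) (hQ₀P : Q₀ ∉ P)
    (hz : NoZeros (locCone P G) {x | x ∈ locCone P G ∧ eval x Q₀ = 0} Ω)
    {Q₁ : MvPolynomial (Fin (N + 1)) ℂ} (hQ₁ : Q₁.IsHomogeneous D₁) (hQ₁P : Q₁ ∉ P) (hD₁ : 1 ≤ D₁)
    (hb : Brody2 (locCone P G) {x | x ∈ cone P ∧ eval x Q₁ = 0}) :
    ModelK (cone P) (locCone P G) {x | x ∈ cone P ∧ eval x (G m₀ * Q₀ * Q₁) = 0} (k * (e m₀ + 1)) 1
      (fun x v w => eval x (G m₀) * Ω x v w ^ (e m₀ + 1))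
      (fun (_ : Unit) x => eval x (G m₀ * Q₀ * Q₁)) (e m₀ + D₀ + D₁) := by
  set d := e m₀ with hd
  have hH₀ : (G m₀).IsHomogeneous d := h.homG m₀
  set Q : MvPolynomial (Fin (N + 1)) ℂ := G m₀ * Q₀ * Q₁ with hQdef
  have hQhom : Q.IsHomogeneous (d + D₀ + D₁) := (hH₀.mul hQ₀).mul hQ₁
  have hQP : Q ∉ P := by
    intro h
    rcases hPp.mem_or_mem h with h | h
    · rcases hPp.mem_or_mem h with h | h
      · exact hm₀ h
      · exact hQ₀P h
    · exact hQ₁P h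
  have hout : ∀ x ∈ cone P, x ∉ locCone P G → eval x (G m₀) = 0 := by
    intro x hx hxK
    by_contra h1
    exact hxK ⟨hx, m₀, h1⟩
  have hform := isForm_pow_mul (k := d + 1) (d := d) (by omega) hΩ (H := fun x => eval x (G m₀)) (analyticAt_form _)
    (fun c x => eval_smul_form hH₀ c x) (locCone_smul hP h.homG)
  have h1 : 1 * (d + 1) - d = 1 := by omega
  rw [h1] at hform
  refine ⟨hX, openPart_locCone h hP, ⟨M + 1, affF G F, affProper_locCone h hP⟩, ?_, Nat.mul_pos hk (Nat.succ_pos _), le_rfl,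
    hform, ?_, ?_, ⟨by omega, ?_, ?_, ?_, ?_⟩, ?_, ?_⟩
  · intro x hx hxK
    refine ⟨hx, ?_⟩
    rw [hQdef, map_mul, map_mul, hout x hx hxK, zero_mul, zero_mul]
  · intro x hx hxT v hv w hw hi
    have h2 : eval x (G m₀) ≠ 0 := by
      intro h0
      refine hxT ⟨hx.1, ?_⟩
      rw [hQdef, map_mul, map_mul, h0, zero_mul, zero_mul]
    refine mul_ne_zero h2 (pow_ne_zero _ (hz x hx (fun h => hxT ⟨hx.1, ?_⟩) v hv w hw hi))
    rw [hQdef, map_mul, map_mul, h.2, mul_zero, zero_mul]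
  · exact PoleLE.pow_mul hk (Nat.succ_pos d) hpole (H := fun x => eval x (G m₀)) (analyticAt_form _) hout
  · intro _ x
    exact analyticAt_form Q x
  · intro _ c x
    exact eval_smul_form hQhom c x
  · intro x
    exact ⟨fun h => ⟨h.1, fun _ => h.2⟩, fun h => ⟨h.1, h.2 ()⟩⟩
  · intro x hx
    exact ⟨(), Eventually.of_forall fun y hy h => ⟨hy, h⟩⟩
  · intro σ τ h
    exact (hthin σ τ h _ Q hQhom hQP).mono fun p hp hpB => hp hpB.2
  · rintro f hf hfX hf2 ⟨z₁, hz₁⟩ z w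
    refine hb f hf hfX hf2 ⟨z₁, fun h => hz₁ ⟨h.1, ?_⟩⟩ z w
    rw [hQdef, map_mul, h.2, mul_zero]

/-- **The model of an open surface which is proper over an affine variety**, with a section of a multiple of the logarithmic canonical
bundle minus a hyperplane, such that the nonconstant entire curves of order at most two lie in a proper closed subset. -/
theorem exists_modelF [hPp : P.IsPrime] (hP : Homog P) (h : IsProperMap P G F e) (hX : Surface (cone P))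
    (hthin : ∀ σ τ, IsChart (cone P) σ τ → ∀ (d : ℕ) (Q : MvPolynomial (Fin (N + 1)) ℂ), Q.IsHomogeneous d →
      Q ∉ P → ∃ᶠ p in 𝓝 (0 : ℂ × ℂ), eval (σ p) Q ≠ 0)
    {k D₀ : ℕ} (hk : 1 ≤ k) {Ω : (Fin (N + 1) → ℂ) → (Fin (N + 1) → ℂ) → (Fin (N + 1) → ℂ) → ℂ}
    (hΩ : IsForm (locCone P G) k 1 Ω) (hpole : PoleLE (cone P) (locCone P G) k Ω)
    {Q₀ : MvPolynomial (Fin (N + 1)) ℂ} (hQ₀ : Q₀.IsHomogeneous D₀) (hQ₀P : Q₀ ∉ P)
    (hz : NoZeros (locCone P G) {x | x ∈ locCone P G ∧ eval x Q₀ = 0} Ω) {Ξ : Set (PN N)}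
    (hΞ : ZariskiClosedIn (locVar P G) Ξ) (hne : Ξ ≠ locVar P G)
    (hbr : ∀ f : ℂ → PN N, HolomorphicInto f Set.univ → OrderTwo f → (∀ z, f z ∈ locVar P G) →
      (∃ z w, f z ≠ f w) → ∀ z, f z ∈ Ξ) :
    ∃ (Q : MvPolynomial (Fin (N + 1)) ℂ) (D : ℕ), Q.IsHomogeneous D ∧ Q ∉ P ∧
      (∃ x ∈ locVar P G, ¬ VanishesAt Q x) ∧ (∀ x ∈ Ξ, VanishesAt Q x) ∧
      ∃ (m j : ℕ) (Ω' : (Fin (N + 1) → ℂ) → (Fin (N + 1) → ℂ) → (Fin (N + 1) → ℂ) → ℂ),
        ModelK (cone P) (locCone P G) {x | x ∈ cone P ∧ eval x Q = 0} m j Ω' (fun (_ : Unit) x => eval x Q) D := by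
  classical
  obtain ⟨S, hS, rfl⟩ := hΞ
  -- a form which vanishes on the exceptional set
  obtain ⟨x₁, hx₁, hx₁S⟩ : ∃ x ∈ locVar P G, ∃ Q ∈ S, ¬ VanishesAt Q x := by
    by_contra hcon
    push Not at hcon
    apply hne
    ext x
    exact ⟨fun h => h.1, fun h => ⟨h, hcon x h⟩⟩
  obtain ⟨Q₁, hQ₁S, hQ₁x⟩ := hx₁S
  obtain ⟨d₁, hQ₁⟩ := hS Q₁ hQ₁S
  have hQ₁P : Q₁ ∉ P := fun h => hQ₁x (hx₁.1 Q₁ h d₁ hQ₁)
  have hx₁K : x₁.rep ∈ locCone P G := (rep_mem_locCone hP).2 hx₁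
  obtain ⟨m₀, hm₀x⟩ := hx₁K.2
  have hm₀ : G m₀ ∉ P := fun h => hm₀x (hx₁K.1.2 _ h)
  obtain ⟨l, hl⟩ : ∃ l, x₁.rep l ≠ 0 := by
    by_contra hcon
    push Not at hcon
    exact x₁.rep_nonzero (funext hcon)
  have hlP : (X l : MvPolynomial (Fin (N + 1)) ℂ) ∉ P := by
    intro h
    have := hx₁K.1.2 _ h
    rw [eval_X] at this
    exact hl this
  have hQ₂ : (Q₁ * X l).IsHomogeneous (d₁ + 1) := hQ₁.mul (isHomogeneous_X ℂ l)
  have hQ₂P : Q₁ * X l ∉ P := fun h => (hPp.mem_or_mem h).elim hQ₁P hlP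
  have hBr : Brody2 (locCone P G) {x | x ∈ cone P ∧ eval x (Q₁ * X l) = 0} := by
    refine brody2_of_curves (fun x hx => hx.1.1) (fun x hx0 hx => (mk_mem_locVar hP h.homG hx0).2 hx) ?_ hbr
    intro x hx0 hx hxΞ
    have h2 := hxΞ.2 Q₁ hQ₁S
    rw [vanishesAt_mk hQ₁] at h2
    refine ⟨hx.1, ?_⟩
    rw [map_mul, h2, zero_mul]
  have hmodel := modelK_startF hP h hX hthin hm₀ hk hΩ hpole hQ₀ hQ₀P hz hQ₂ hQ₂P (by omega) hBr
  set Q : MvPolynomial (Fin (N + 1)) ℂ := G m₀ * Q₀ * (Q₁ * X l) with hQdef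
  have hQhom : Q.IsHomogeneous (e m₀ + D₀ + (d₁ + 1)) := ((h.homG m₀).mul hQ₀).mul hQ₂
  have hQP : Q ∉ P := by
    intro h'
    rcases hPp.mem_or_mem h' with h' | h'
    · rcases hPp.mem_or_mem h' with h' | h'
      · exact hm₀ h'
      · exact hQ₀P h'
    · exact hQ₂P h'
  refine ⟨Q, e m₀ + D₀ + (d₁ + 1), hQhom, hQP, ?_, ?_, _, _, _, hmodel⟩
  · -- properness
    obtain ⟨σ, τ, h', hσ0⟩ := hX.chart x₁.rep hx₁K.1
    have hKσ : ∀ᶠ p in 𝓝 (0 : ℂ × ℂ), σ p ∈ locCone P G := by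
      have h1 := h'.σ_an.continuousAt.tendsto
      rw [hσ0] at h1
      filter_upwards [h1.eventually ((openPart_locCone h hP).rel _ hx₁K), h'.σ_mem] with p h2 h3
      exact h2 h3
    obtain ⟨p, hp1, hp2⟩ := ((hthin σ τ h' _ Q hQhom hQP).and_eventually hKσ).exists
    have h3 : Projectivization.mk ℂ (σ p) hp2.1.1 ∈ locVar P G := (mk_mem_locVar hP h.homG hp2.1.1).2 hp2
    exact ⟨_, h3, fun h4 => hp1 ((vanishesAt_mk hQhom hp2.1.1).1 h4)⟩
  · intro x hx
    have h1 : eval x.rep Q₁ = 0 := hx.2 Q₁ hQ₁S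
    show eval x.rep Q = 0
    rw [hQdef, map_mul, map_mul, map_mul, h1, zero_mul, mul_zero]

/-- The extension theorem for maps into the projective space. -/
theorem extends_of_modelF (hP : Homog P)
    {Q : MvPolynomial (Fin (N + 1)) ℂ} {D m j : ℕ} {Ω : (Fin (N + 1) → ℂ) → (Fin (N + 1) → ℂ) → (Fin (N + 1) → ℂ) → ℂ}
    (h : ModelK (cone P) (locCone P G) {x | x ∈ cone P ∧ eval x Q = 0} m j Ω (fun (_ : Unit) x => eval x Q) D)
    {f : ℂ → PN N} (hf : HolomorphicInto f puncturedDisc) (hfX : ∀ z ∈ puncturedDisc, f z ∈ locVar P G)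
    (hfQ : ∃ z ∈ puncturedDisc, ¬ VanishesAt Q (f z)) :
    ∃ g : ℂ → PN N, HolomorphicInto g (Metric.ball 0 1) ∧ ∀ z ∈ puncturedDisc, g z = f z := by
  obtain ⟨z₁, hz₁, hz₁Q⟩ := hfQ
  have hball : ∀ z : ℂ, z ≠ 0 → ‖z‖ < 1 → z ∈ puncturedDisc := fun z h0 h1 => ⟨by simpa using h1, h0⟩
  have hball' : ∀ z ∈ puncturedDisc, z ≠ 0 ∧ ‖z‖ < 1 := fun z hz => ⟨hz.2, by simpa using hz.1⟩
  obtain ⟨F, hF, hF0, he⟩ := picard_of_modelK h 1 one_pos (fun z => (f z).rep)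
    (fun z h0 h1 => ⟨holP_rep hf (hball z h0 h1), (rep_mem_locCone hP).2 (hfX z (hball z h0 h1))⟩)
    ⟨z₁, (hball' z₁ hz₁).1, (hball' z₁ hz₁).2, fun h => hz₁Q h.2⟩
  classical
  refine ⟨fun z => if z = 0 then Projectivization.mk ℂ (F 0) hF0 else f z, ?_, ?_⟩
  · intro z₀ hz₀
    by_cases h0 : z₀ = 0
    · subst h0
      refine ⟨F, hF, ?_⟩
      rw [eventually_nhdsWithin_iff] at he
      filter_upwards [he, hF.continuousAt.eventually_ne hF0] with z h1 h2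
      refine ⟨h2, ?_⟩
      by_cases h3 : z = 0
      · subst h3
        rw [if_pos rfl]
      · rw [if_neg h3, ← (h1 h3).mk_eq (f z).rep_nonzero h2, Projectivization.mk_rep]
    · obtain ⟨φ, hφ, hφe⟩ := hf z₀ ⟨hz₀, h0⟩
      refine ⟨φ, hφ, ?_⟩
      filter_upwards [hφe, isOpen_compl_singleton.mem_nhds (show z₀ ∈ ({0} : Set ℂ)ᶜ from h0)] with z h1 h2
      obtain ⟨h3, h4⟩ := h1
      have h5 : z ≠ 0 := h2
      exact ⟨h3, by rw [if_neg h5, h4]⟩
  · intro z hz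
    exact if_neg hz.2

end Pool.Agent.H62.SA
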